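import Pool.Agent.H77.PM.Targets

/-!
# Row CYL: closed sets are intersections of finitely supported closed sets
-/

set_option autoImplicit false

open Set Filter Topology

namespace Pool.Agent.H42.PM

open Pool.Agent.H77.PM

section

variable {ι : Type} {ar : ι → ℕ} {Z : Type} [TopologicalSpace Z]

/-- the set depends on the points in `F` and the symbols in `I` -/
private def Dep (F : Finset ℕ) (I : Finset ι) (U : Set (Code ι ar Z)) : Prop :=
  ∀ y z : Code ι ar Z, (∀ i ∈ F, ∀ j ∈ F, y.1 i j = z.1 i j) →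
    (∀ i ∈ I, ∀ a : Fin (ar i) → ℕ, (∀ j, a j ∈ F) → y.2 i a = z.2 i a) → (y ∈ U ↔ z ∈ U)

private theorem Dep.mono {F F' : Finset ℕ} {I I' : Finset ι} {U : Set (Code ι ar Z)}
    (h : Dep F I U) (hF : F ⊆ F') (hI : I ⊆ I') : Dep F' I' U := by
  intro y z h1 h2
  exact h y z (fun i hi j hj => h1 i (hF hi) j (hF hj))
    fun i hi a ha => h2 i (hI hi) a fun j => hF (ha j)

private theorem Dep.inter {F : Finset ℕ} {I : Finset ι} {U V : Set (Code ι ar Z)}
    (h : Dep F I U) (h' : Dep F I V) : Dep F I (U ∩ V) := by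
  intro y z h1 h2
  rw [mem_inter_iff, mem_inter_iff, h y z h1 h2, h' y z h1 h2]

/-- the neighbourhoods with finite support -/
private def fil (x : Code ι ar Z) : Filter (Code ι ar Z) where
  sets := {V | ∃ (F : Finset ℕ) (I : Finset ι) (U : Set (Code ι ar Z)), IsOpen U ∧ x ∈ U ∧
    Dep F I U ∧ U ⊆ V}
  univ_sets := ⟨∅, ∅, univ, isOpen_univ, mem_univ _, fun _ _ _ _ => Iff.rfl, subset_univ _⟩
  sets_of_superset := by
    rintro V W ⟨F, I, U, h1, h2, h3, h4⟩ hVW
    exact ⟨F, I, U, h1, h2, h3, h4.trans hVW⟩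
  inter_sets := by
    classical
    rintro V W ⟨F, I, U, h1, h2, h3, h4⟩ ⟨F', I', U', h1', h2', h3', h4'⟩
    exact ⟨F ∪ F', I ∪ I', U ∩ U', h1.inter h1', ⟨h2, h2'⟩,
      (h3.mono Finset.subset_union_left Finset.subset_union_left).inter
        (h3'.mono Finset.subset_union_right Finset.subset_union_right),
      inter_subset_inter h4 h4'⟩

private theorem fil_le (x : Code ι ar Z) : fil x ≤ 𝓝 x := by
  classical
  have h1 : Tendsto (fun y : Code ι ar Z => y.1) (fil x) (𝓝 x.1) := by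
    rw [tendsto_pi_nhds]
    intro i
    rw [tendsto_pi_nhds]
    intro j W hW
    obtain ⟨W', hW'1, hW'2, hW'3⟩ := mem_nhds_iff.1 hW
    refine ⟨{i, j}, ∅, {y | y.1 i j ∈ W'}, hW'2.preimage (by fun_prop), hW'3, ?_, fun y hy => hW'1 hy⟩
    intro y z h _
    rw [mem_setOf_eq, mem_setOf_eq, h i (by simp) j (by simp)]
  have h2 : Tendsto (fun y : Code ι ar Z => y.2) (fil x) (𝓝 x.2) := by
    rw [tendsto_pi_nhds]
    intro i
    rw [tendsto_pi_nhds]
    intro a W hW
    obtain ⟨W', hW'1, hW'2, hW'3⟩ := mem_nhds_iff.1 hW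
    refine ⟨Finset.univ.image a, {i}, {y | y.2 i a ∈ W'}, hW'2.preimage (by fun_prop), hW'3, ?_,
      fun y hy => hW'1 hy⟩
    intro y z _ h
    rw [mem_setOf_eq, mem_setOf_eq, h i (by simp) a fun j =>
      Finset.mem_image_of_mem a (Finset.mem_univ j)]
  rw [← Prod.mk.eta (p := x), nhds_prod_eq]
  exact h1.prodMk h2

end

theorem pf_CYL : T_CYL := by
  intro ι ar Z _ A
  refine ⟨fun F => ⟨?_, ?_⟩, ?_, ?_⟩
  · rw [← isOpen_compl_iff, isOpen_iff_forall_mem_open]
    intro x hx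
    rw [mem_compl_iff, cyl, mem_setOf_eq] at hx
    push Not at hx
    obtain ⟨I, U, h1, h2, h3, h4⟩ := hx
    refine ⟨U, fun y hy hyc => ?_, h1, h2⟩
    have h5 := hyc I U h1 hy h3
    rw [h4] at h5
    exact not_nonempty_empty h5
  · intro x hx I U _ h2 _
    exact ⟨x, h2, hx⟩
  · have key : ∀ (F : Finset ℕ) (x y : Code ι ar Z), (∀ i ∈ F, ∀ j ∈ F, x.1 i j = y.1 i j) →
        (∀ i, ∀ a : Fin (ar i) → ℕ, (∀ j, a j ∈ F) → x.2 i a = y.2 i a) →
        x ∈ cyl F A → y ∈ cyl F A := by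
      intro F x y h1 h2 hx I U h3 h4 h5
      refine hx I U h3 ?_ h5
      rw [h5 x y h1 fun i _ => h2 i]
      exact h4
    intro F x y h1 h2
    exact ⟨key F x y h1 h2, key F y x (fun i hi j hj => (h1 i hi j hj).symm)
      fun i a ha => (h2 i a ha).symm⟩
  · intro hA x hx
    rw [← hA.closure_eq, mem_closure_iff_nhds]
    intro V hV
    obtain ⟨F, I, U, h1, h2, h3, h4⟩ := fil_le x hV
    obtain ⟨y, hy1, hy2⟩ := hx F I U h1 h2 h3
    exact ⟨y, h4 hy1, hy2⟩

end Pool.Agent.H42.PM
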