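import Pool.Agent.H77.PM.Targets

/-!
# Row FOUR: all arities
-/

set_option autoImplicit false

open Set Filter Topology

namespace Pool.Agent.H42.PM

open Pool.Agent.H77.PM

theorem pf_FOUR (hPER : T_PER) (hSUBC : T_SUBC) (hTLL : T_TLL) (hISL : T_ISL) (hBAI : T_BAI)
    (hDEN : T_DEN) (hSIG : T_SIG) : T_FOUR := by
  intro hD4 ι _ ar Z _ _ _ _ X hX hC hInv
  obtain ⟨C, hCc, hCX⟩ := hC
  by_cases hFD : ∀ x ∈ X, FD x
  · -- all codes have finitely many distances
    by_cases hne : X.Nonempty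
    · obtain ⟨x₀, hx₀⟩ := hne
      obtain ⟨c, hc⟩ : ∃ c : ι → Z, c = fun i => x₀.2 i fun _ => 0 := ⟨_, rfl⟩
      obtain ⟨A, hA1, hA2⟩ := hSIG ι ar Z c C hCc
      obtain ⟨t1, -, -, t4⟩ := hTLL ι ar Z c
      have hmem : ∀ y, y ∈ (⋃ n, ⋂ j, A n j) ↔ ∃ x ∈ X, y = tilL c x := by
        intro y
        rw [hA2]
        constructor
        · rintro ⟨x, -, hS, hn, rfl⟩
          exact ⟨x, (hCX x hS).2 hn, rfl⟩
        · rintro ⟨x, hx, rfl⟩
          exact ⟨x, hFD x hx, hX x hx, (hCX x (hX x hx)).1 hx, rfl⟩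
      have hinv : ∀ x ∈ (⋃ n, ⋂ j, A n j), ∀ y, Isomorphic x y → y ∈ (⋃ n, ⋂ j, A n j) := by
        intro x hx z hz
        rw [hmem] at hx ⊢
        obtain ⟨w, hw, rfl⟩ := hx
        obtain ⟨S, hS⟩ := hX w hw
        obtain ⟨-, h2, h3⟩ := (hISL ι ar Z c w).2 S z hS hz
        exact ⟨decL z, hInv w hw _ h2, h3⟩
      rcases hD4 (ℝ × (ι → Z)) (⋃ n, ⋂ j, A n j) ⟨A, hA1, rfl⟩ hinv with h | h
      · left
        obtain ⟨D, hD1, hD2⟩ := h
        refine ⟨decL '' D, hD1.image _, fun x hx => ?_⟩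
        obtain ⟨y, hy1, hy2⟩ := hD2 (tilL c x) ((hmem _).2 ⟨x, hx, rfl⟩)
        obtain ⟨S, hS⟩ := hX x hx
        exact ⟨decL y, mem_image_of_mem _ hy1, ((hISL ι ar Z c x).2 S y hS hy2).2.1⟩
      · right
        obtain ⟨F, hF1, hF2, hF3⟩ := h
        have hF4 : ∀ u, decL (F u) ∈ X ∧ tilL c (decL (ar := ar) (F u)) = F u := by
          intro u
          obtain ⟨x, hx, hxu⟩ := (hmem _).1 (hF2 u)
          rw [hxu, t1]
          exact ⟨hx, rfl⟩
        refine ⟨fun u => decL (F u), t4.comp hF1, fun u => (hF4 u).1, fun u v huv hS => ?_⟩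
        have h1 := (hISL ι ar Z c (decL (F u))).1 (decL (F v)) (hFD _ (hF4 u).1) hS
        rw [(hF4 u).2, (hF4 v).2] at h1
        exact hF3 u v huv h1
    · left
      exact ⟨∅, countable_empty, fun x hx => (hne ⟨x, hx⟩).elim⟩
  · -- some code has infinitely many distances
    push Not at hFD
    obtain ⟨x, hx, hxF⟩ := hFD
    obtain ⟨S, p, hp, rfl⟩ := hX x hx
    have hperm : ∀ g : Equiv.Perm ℕ, code S (p ∘ g) ∈ X := by
      intro g
      apply hInv _ hx
      refine ⟨S, S, ⟨p, hp, rfl⟩, ⟨p ∘ g, ⟨hp.1.comp g.injective, ?_⟩, rfl⟩, Equiv.refl _,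
        fun _ _ => rfl, fun _ _ => rfl⟩
      unfold DenseRange
      rw [g.surjective.range_comp]
      exact hp.2
    obtain ⟨n, m, g₀, hg₀⟩ := hBAI (fun n => {g | code S (p ∘ g) ∈ C n}) (by
      intro n g hg
      choose g' hg'1 hg'2 using hg
      change code S (p ∘ g) ∈ C n
      refine (hCc n).mem_of_tendsto (f := fun N => code S (p ∘ g' N)) (b := atTop) ?_
        (Eventually.of_forall hg'1)
      rw [← Prod.mk.eta (p := code S (p ∘ g)), nhds_prod_eq]
      refine Tendsto.prodMk ?_ ?_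
      · rw [tendsto_pi_nhds]
        intro i
        rw [tendsto_pi_nhds]
        intro j
        apply tendsto_const_nhds.congr'
        filter_upwards [eventually_gt_atTop i, eventually_gt_atTop j] with N h1 h2
        change dist (p (g i)) (p (g j)) = dist (p (g' N i)) (p (g' N j))
        rw [hg'2 N i h1, hg'2 N j h2]
      · rw [tendsto_pi_nhds]
        intro i
        rw [tendsto_pi_nhds]
        intro a
        apply tendsto_const_nhds.congr'
        have h1 : ∀ᶠ N in (atTop : Filter ℕ), ∀ j, a j < N := by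
          rw [eventually_all]
          exact fun j => eventually_gt_atTop (a j)
        filter_upwards [h1] with N h1
        change S.f i (p ∘ g ∘ a) = S.f i (p ∘ g' N ∘ a)
        congr 1
        funext j
        change p (g (a j)) = p (g' N (a j))
        rw [hg'2 N (a j) (h1 j)]) (fun g => (hCX _ ⟨S, p ∘ g, ⟨hp.1.comp g.injective, by
      unfold DenseRange
      rw [g.surjective.range_comp]
      exact hp.2⟩, rfl⟩).1 (hperm g))
    right
    refine hPER ι ar Z S (p ∘ g₀) m X (hp.1.comp g₀.injective) ?_ fun q hq1 hq2 => ?_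
    · intro hfin
      apply hxF
      refine hfin.subset ?_
      rintro d ⟨i, j, rfl⟩
      exact ⟨(p i, p j), rfl⟩
    · obtain ⟨T, hT⟩ := hSUBC ι ar Z S q hq1
      exact (hCX _ ⟨T, hT⟩).2 ⟨n, hDEN ι ar Z S p (C n) m g₀ hp (hCc n) (fun g hg => hg₀ g hg) q
        hq1 hq2⟩

end Pool.Agent.H42.PM
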